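import Pool.Agent.Y560.KH.Tr

/-!
In no node of the Kripke model the collection scheme for existential formulas holds.
-/

set_option autoImplicit false

namespace Pool.Agent.Y560.KH

open Filter Pool.Agent.H872R3.KH
open Nat.Partrec (Code)

/-- `a < b` in a structure: `a + S c = b` for some `c`. -/
def Lt {M : Type} (A : Str M) (a b : M) : Prop := ∃ c, A.add a (A.succ c) = b

/-- The collection axiom for `θ(y, a, v)` holds: for all parameters `v` and all `c`, if for every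
`a < c` there is `y` with `θ(y, a, v)`, then there is `b` such that for every `a < c` there is
`y < b` with `θ(y, a, v)`. -/
def Collects {M : Type} (A : Str M) {n : ℕ} (θ : Fm (n + 2)) : Prop :=
  ∀ (v : Fin n → M) (c : M), (∀ a, Lt A a c → ∃ y, Sat A θ (cns y (cns a v))) →
    ∃ b, ∀ a, Lt A a c → ∃ y, Lt A y b ∧ Sat A θ (cns y (cns a v))

theorem lt_iff (k : Node) (a b : k.D) : Lt k.str a b ↔ ∀ᶠ x in k.F, vl a.1 x < vl b.1 x :=
  sat_ltV k (cns a (cns b (fun i : Fin 0 => i.elim0))) 0 1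

/-- the program `y.1 < d` gives `a` on `b` after `y.2` steps -/
def rel (y a b d : ℕ) : Bool :=
  decide (y.unpair.1 < d) && decide (evs (Nat.pair y.unpair.2 b) y.unpair.1 = some a)

theorem pigeon (B b d : ℕ) : ∃ a, a ≤ d ∧ ∀ y < B, rel y a b d = false := by
  by_contra hno
  push Not at hno
  have h1 : ∀ a : Fin (d + 1), ∃ y, rel y a b d = true := by
    intro a
    obtain ⟨y, -, hy⟩ := hno a (Nat.lt_succ_iff.1 a.2)
    exact ⟨y, by simpa using hy⟩
  choose y hy using h1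
  have h2 : ∀ a : Fin (d + 1), (y a).unpair.1 < d ∧
      evs (Nat.pair (y a).unpair.2 b) (y a).unpair.1 = some (a : ℕ) := by
    intro a
    have := hy a
    unfold rel at this
    rw [Bool.and_eq_true, decide_eq_true_eq, decide_eq_true_eq] at this
    exact this
  obtain ⟨a, a', hne, heq⟩ := Fintype.exists_ne_map_eq_of_card_lt
    (fun a : Fin (d + 1) => (⟨(y a).unpair.1, (h2 a).1⟩ : Fin d)) (by simp)
  apply hne
  have h3 : (y a).unpair.1 = (y a').unpair.1 := congrArg Fin.val heq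
  have h4 := (h2 a).2
  have h5 := (h2 a').2
  unfold evs at h4 h5
  rw [Nat.unpair_pair] at h4 h5
  rw [← h3] at h5
  exact Fin.ext (Part.mem_unique (Code.evaln_sound h4) (Code.evaln_sound h5))

theorem prim_rel : Primrec (fun a : (ℕ × ℕ) × (ℕ × ℕ) => rel a.1.1 a.1.2 a.2.1 a.2.2) := by
  have y : Primrec (fun a : (ℕ × ℕ) × (ℕ × ℕ) => a.1.1) := Primrec.fst.comp Primrec.fst
  have c : Primrec (fun a : (ℕ × ℕ) × (ℕ × ℕ) => a.1.2) := Primrec.snd.comp Primrec.fst
  have b : Primrec (fun a : (ℕ × ℕ) × (ℕ × ℕ) => a.2.1) := Primrec.fst.comp Primrec.snd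
  have d : Primrec (fun a : (ℕ × ℕ) × (ℕ × ℕ) => a.2.2) := Primrec.snd.comp Primrec.snd
  have y1 : Primrec (fun a : (ℕ × ℕ) × (ℕ × ℕ) => a.1.1.unpair.1) :=
    Primrec.fst.comp (Primrec.unpair.comp y)
  have y2 : Primrec (fun a : (ℕ × ℕ) × (ℕ × ℕ) => a.1.1.unpair.2) :=
    Primrec.snd.comp (Primrec.unpair.comp y)
  have h1 : Primrec (fun a : (ℕ × ℕ) × (ℕ × ℕ) => decide (a.1.1.unpair.1 < a.2.2)) :=
    Primrec.nat_lt.decide.comp y1 d
  have h2 : Primrec (fun a : (ℕ × ℕ) × (ℕ × ℕ) =>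
      decide (evs (Nat.pair a.1.1.unpair.2 a.2.1) a.1.1.unpair.1 = some a.1.2)) :=
    (Primrec.eq (α := Option ℕ)).decide.comp (prim_evs.comp (Primrec₂.natPair.comp y2 b) y1)
      (Primrec.option_some.comp c)
  exact Primrec.and.comp h1 h2

theorem prim_q : Primrec₂ q :=
  Primrec.nat_add.comp (Primrec.nat_mul.comp Primrec.nat_add Primrec.nat_add) Primrec.snd

attribute [local irreducible] q rel evs

/-- the test of the search -/
def tst2 (p t : ℕ) : Bool :=
  decide (q (q (q t.unpair.1.unpair.1 t.unpair.1.unpair.2) t.unpair.2.unpair.1)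
    t.unpair.2.unpair.2 = p) &&
    rel t.unpair.1.unpair.1 t.unpair.1.unpair.2 t.unpair.2.unpair.1 t.unpair.2.unpair.2

theorem comp_tst2 : Computable₂ tst2 := by
  have u : Primrec (fun a : ℕ × ℕ => a.2.unpair) := Primrec.unpair.comp Primrec.snd
  have u1 : Primrec (fun a : ℕ × ℕ => a.2.unpair.1.unpair) := Primrec.unpair.comp (Primrec.fst.comp u)
  have u2 : Primrec (fun a : ℕ × ℕ => a.2.unpair.2.unpair) := Primrec.unpair.comp (Primrec.snd.comp u)
  have y : Primrec (fun a : ℕ × ℕ => a.2.unpair.1.unpair.1) := Primrec.fst.comp u1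
  have c : Primrec (fun a : ℕ × ℕ => a.2.unpair.1.unpair.2) := Primrec.snd.comp u1
  have b : Primrec (fun a : ℕ × ℕ => a.2.unpair.2.unpair.1) := Primrec.fst.comp u2
  have d : Primrec (fun a : ℕ × ℕ => a.2.unpair.2.unpair.2) := Primrec.snd.comp u2
  have hq : Primrec₂ q := prim_q
  have h1 : Primrec (fun a : ℕ × ℕ => decide (q (q (q a.2.unpair.1.unpair.1 a.2.unpair.1.unpair.2)
      a.2.unpair.2.unpair.1) a.2.unpair.2.unpair.2 = a.1)) :=
    (Primrec.eq (α := ℕ)).decide.comp (hq.comp (hq.comp (hq.comp y c) b) d) Primrec.fst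
  have h2 : Primrec (fun a : ℕ × ℕ => rel a.2.unpair.1.unpair.1 a.2.unpair.1.unpair.2
      a.2.unpair.2.unpair.1 a.2.unpair.2.unpair.2) :=
    prim_rel.comp (Primrec.pair (Primrec.pair y c) (Primrec.pair b d))
  exact (Primrec.and.comp h1 h2).to_comp

theorem exists_code2 : ∃ e₀ : ℕ, ∀ y a b d : ℕ, 0 ∈ appl e₀ (q (q (q y a) b) d) ↔
    rel y a b d = true := by
  let G : ℕ →. ℕ := fun p => (Nat.rfind (fun t => Part.some (tst2 p t))).map (fun _ => 0)
  have hG : Partrec G := (Partrec.rfind comp_tst2.partrec₂).map (Computable.const 0).to₂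
  obtain ⟨e, he⟩ := Code.exists_code.1 (Partrec.nat_iff.1 hG)
  refine ⟨Encodable.encode e, fun y a b d => ?_⟩
  unfold appl
  rw [Denumerable.ofNat_encode, he]
  constructor
  · intro h
    obtain ⟨t, ht, -⟩ := (Part.mem_map_iff _).1 h
    have h1 := Nat.rfind_spec ht
    have h2 : tst2 (q (q (q y a) b) d) t = true := by simpa using h1
    unfold tst2 at h2
    rw [Bool.and_eq_true, decide_eq_true_eq] at h2
    obtain ⟨h3, h4⟩ := h2
    obtain ⟨h5, h6⟩ := q_inj h3
    obtain ⟨h7, h8⟩ := q_inj h5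
    obtain ⟨h9, h10⟩ := q_inj h7
    rw [h6, h8, h9, h10] at h4
    exact h4
  · intro hz
    have h1 : tst2 (q (q (q y a) b) d) (Nat.pair (Nat.pair y a) (Nat.pair b d)) = true := by
      unfold tst2
      simp only [Nat.unpair_pair, Bool.and_eq_true, decide_eq_true_eq]
      exact ⟨trivial, hz⟩
    have h2 : (Nat.rfind (fun t => Part.some (tst2 (q (q (q y a) b) d) t))).Dom :=
      Nat.rfind_dom.2 ⟨_, by rw [h1]; exact Part.mem_some _, fun _ => trivial⟩
    obtain ⟨t, ht⟩ := Part.dom_iff_mem.1 h2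
    exact (Part.mem_map_iff _).2 ⟨t, ht, rfl⟩

theorem exists_theta2 : ∃ θ : Fm 4, IsEx θ ∧ ∀ (k : Node) (u : Fin 4 → k.D), Sat k.str θ u ↔
    ∀ᶠ x in k.F, rel (vl (u 0).1 x) (vl (u 1).1 x) (vl (u 2).1 x) (vl (u 3).1 x) = true := by
  obtain ⟨Θ, hΘ, h⟩ := exists_formula'
  obtain ⟨e₀, he₀⟩ := exists_code2
  let σ : Fin 3 → Tm 4 := fun i => Fin.cases (num e₀) (fun j => Fin.cases
    (qT (qT (qT (.var 0) (.var 1)) (.var 2)) (.var 3)) (fun _ => .zero) j) i
  refine ⟨Θ.subst σ, hΘ.subst σ, fun k u => ?_⟩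
  rw [sat_subst, h]
  have e0 := ev_spec k u (num e₀ : Tm 4)
  have e1 := ev_spec k u (qT (qT (qT (.var 0) (.var 1)) (.var 2)) (.var 3))
  have e2 := ev_spec k u (Tm.zero : Tm 4)
  refine eventually_congr ?_
  filter_upwards [e0, e1, e2] with x h0 h1 h2
  have v0 : vl ((num e₀ : Tm 4).ev k.str u).1 x = e₀ := by
    apply vl_of_mem
    rw [h0, num_ev]
    exact Part.mem_some _
  have v1 : vl ((qT (qT (qT (.var 0) (.var 1)) (.var 2)) (.var 3) : Tm 4).ev k.str u).1 x =
      q (q (q (vl (u 0).1 x) (vl (u 1).1 x)) (vl (u 2).1 x)) (vl (u 3).1 x) := by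
    apply vl_of_mem
    rw [h1, qT_ev, qT_ev, qT_ev]
    exact Part.mem_some _
  have v2 : vl ((Tm.zero : Tm 4).ev k.str u).1 x = 0 := by
    apply vl_of_mem
    rw [h2]
    exact Part.mem_some _
  show vl ((Tm.zero : Tm 4).ev k.str u).1 x ∈ appl (vl ((num e₀ : Tm 4).ev k.str u).1 x)
    (vl ((qT (qT (qT (.var 0) (.var 1)) (.var 2)) (.var 3) : Tm 4).ev k.str u).1 x) ↔ _
  rw [v0, v1, v2]
  exact he₀ _ _ _ _

/-- no `y` below the bound; `p` codes `((b, d), a)` -/
def bad (p : ℕ) : ℕ → Bool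
  | 0 => true
  | y + 1 => bad p y && !rel y p.unpair.2 p.unpair.1.unpair.1 p.unpair.1.unpair.2

theorem bad_iff (p B : ℕ) : bad p B = true ↔
    ∀ y < B, rel y p.unpair.2 p.unpair.1.unpair.1 p.unpair.1.unpair.2 = false := by
  induction B with
  | zero => simp [bad]
  | succ y ih =>
    unfold bad
    rw [Bool.and_eq_true, ih, Bool.not_eq_true']
    constructor
    · rintro ⟨h1, h2⟩ z hz
      rcases Nat.lt_succ_iff_lt_or_eq.1 hz with h3 | h3
      · exact h1 z h3
      · rw [h3]; exact h2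
    · intro h
      exact ⟨fun z hz => h z (Nat.lt_succ_of_lt hz), h y (Nat.lt_succ_self y)⟩

theorem prim_bad : Primrec₂ bad := by
  have hh : Primrec₂ (fun (p : ℕ × ℕ) (r : ℕ × Bool) => r.2 &&
      !rel r.1 p.1.unpair.2 p.1.unpair.1.unpair.1 p.1.unpair.1.unpair.2) := by
    show Primrec (fun a : (ℕ × ℕ) × (ℕ × Bool) => a.2.2 &&
      !rel a.2.1 a.1.1.unpair.2 a.1.1.unpair.1.unpair.1 a.1.1.unpair.1.unpair.2)
    have h2 : Primrec (fun a : (ℕ × ℕ) × (ℕ × Bool) => a.2.2) := Primrec.snd.comp Primrec.snd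
    have y : Primrec (fun a : (ℕ × ℕ) × (ℕ × Bool) => a.2.1) := Primrec.fst.comp Primrec.snd
    have u : Primrec (fun a : (ℕ × ℕ) × (ℕ × Bool) => a.1.1.unpair) :=
      Primrec.unpair.comp (Primrec.fst.comp Primrec.fst)
    have u1 : Primrec (fun a : (ℕ × ℕ) × (ℕ × Bool) => a.1.1.unpair.1.unpair) :=
      Primrec.unpair.comp (Primrec.fst.comp u)
    have h3 : Primrec (fun a : (ℕ × ℕ) × (ℕ × Bool) =>
        rel a.2.1 a.1.1.unpair.2 a.1.1.unpair.1.unpair.1 a.1.1.unpair.1.unpair.2) :=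
      prim_rel.comp (Primrec.pair (Primrec.pair y (Primrec.snd.comp u))
        (Primrec.pair (Primrec.fst.comp u1) (Primrec.snd.comp u1)))
    exact Primrec.and.comp h2 (Primrec.not.comp h3)
  have h := Primrec.nat_rec' (f := fun p : ℕ × ℕ => p.2) (g := fun _ : ℕ × ℕ => true)
    (h := fun (p : ℕ × ℕ) (r : ℕ × Bool) => r.2 &&
      !rel r.1 p.1.unpair.2 p.1.unpair.1.unpair.1 p.1.unpair.1.unpair.2)
    Primrec.snd (Primrec.const true) hh
  refine h.of_eq fun p => ?_
  obtain ⟨s, d⟩ := p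
  induction d with
  | zero => rfl
  | succ e ih =>
    show _ = (bad s e && _)
    rw [← ih]

theorem main2 : ∃ θ : Fm 4, IsEx θ ∧ ∀ k : Node, ¬ Collects k.str θ := by
  obtain ⟨θ, hθ, hS⟩ := exists_theta2
  refine ⟨θ, hθ, fun k hcol => ?_⟩
  -- the parameters
  have hβ : Valid k.n k.F (fun x => Part.some (cd k.n x)) :=
    ⟨Rec.cd _, Eventually.of_forall fun _ => trivial⟩
  let β := k.mk' _ hβ
  have eβ : ∀ᶠ x in k.F, vl β.1 x = cd k.n x := by
    filter_upwards [k.mk'_spec _ hβ] with x hx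
    apply vl_of_mem
    show _ ∈ (k.mk' _ hβ).1 x
    rw [← hx]
    exact Part.mem_some _
  have hd0 : Valid k.n k.F (fun x => Part.some (x 0)) :=
    ⟨(Rec.last 0).mono k.pos, Eventually.of_forall fun _ => trivial⟩
  let d0 := k.mk' _ hd0
  have ed0 : ∀ᶠ x in k.F, vl d0.1 x = x 0 := by
    filter_upwards [k.mk'_spec _ hd0] with x hx
    apply vl_of_mem
    show _ ∈ (k.mk' _ hd0).1 x
    rw [← hx]
    exact Part.mem_some _
  have es : ∀ c : k.D, ∀ᶠ x in k.F, vl (k.str.succ c).1 x = vl c.1 x + 1 := by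
    intro c
    have := ev_spec k (fun _ : Fin 1 => c) (Tm.succ (.var 0))
    filter_upwards [this] with x h2
    apply vl_of_mem
    change (k.str.succ c).1 x = Part.some (vl c.1 x + 1) at h2
    rw [h2]
    exact Part.mem_some _
  have hR : ∀ y a : k.D, Sat k.str θ (cns y (cns a (cns β (cns d0 (fun i => i.elim0))))) ↔
      ∀ᶠ x in k.F, rel (vl y.1 x) (vl a.1 x) (vl β.1 x) (vl d0.1 x) = true := fun y a => hS k _
  obtain ⟨b, hb⟩ := hcol (cns β (cns d0 (fun i => i.elim0))) (k.str.succ d0) (by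
    intro a _
    obtain ⟨f, hf, haf⟩ := (k.valid a.1 a.2).1
    obtain ⟨p, hp⟩ := Code.exists_code.1 (Partrec.nat_iff.1 hf)
    obtain ⟨s, hs⟩ := exists_map₂ k a β (f := Nat.pair) Primrec₂.natPair.to_comp
    have hT : Computable₂ (fun s t : ℕ => decide (evs (Nat.pair t s.unpair.2)
        (Encodable.encode p) = some s.unpair.1)) := by
      have u : Primrec (fun a : ℕ × ℕ => a.1.unpair) := Primrec.unpair.comp Primrec.fst
      exact ((Primrec.eq (α := Option ℕ)).decide.comp (prim_evs.comp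
        (Primrec₂.natPair.comp Primrec.snd (Primrec.snd.comp u))
        (Primrec.const (Encodable.encode p))) (Primrec.option_some.comp
        (Primrec.fst.comp u))).to_comp
    obtain ⟨t, ht⟩ := exists_search k s hT (by
      filter_upwards [hs, eβ, vl_mem a] with x h1 h2 h3
      rw [haf, ← hp, ← h2] at h3
      obtain ⟨t, ht⟩ := Code.evaln_complete.1 h3
      refine ⟨t, ?_⟩
      rw [h1, Nat.unpair_pair, decide_eq_true_eq]
      unfold evs
      rw [Nat.unpair_pair, Denumerable.ofNat_encode]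
      exact ht)
    obtain ⟨y, hy⟩ := exists_map₂ k t t (f := fun t _ => Nat.pair (Encodable.encode p) t)
      (Primrec₂.natPair.comp (Primrec.const _) Primrec.fst).to_comp
    refine ⟨y, (hR y a).2 ?_⟩
    filter_upwards [hs, ht, hy, ed0, k.big (Encodable.encode p)] with x h1 h2 h3 h4 h5
    rw [h1, Nat.unpair_pair, decide_eq_true_eq] at h2
    unfold rel
    rw [h3, Nat.unpair_pair, h4, Bool.and_eq_true, decide_eq_true_eq, decide_eq_true_eq]
    exact ⟨h5, h2⟩)
  -- the missing value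
  obtain ⟨s, hs⟩ := exists_map₂ k β d0 (f := Nat.pair) Primrec₂.natPair.to_comp
  obtain ⟨w, hw⟩ := exists_map₂ k b s (f := Nat.pair) Primrec₂.natPair.to_comp
  have hT : Computable₂ (fun w a : ℕ => decide (a ≤ w.unpair.2.unpair.2) &&
      bad (Nat.pair w.unpair.2 a) w.unpair.1) := by
    have u : Primrec (fun a : ℕ × ℕ => a.1.unpair) := Primrec.unpair.comp Primrec.fst
    have u2 : Primrec (fun a : ℕ × ℕ => a.1.unpair.2.unpair) :=
      Primrec.unpair.comp (Primrec.snd.comp u)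
    have h1 : Primrec (fun a : ℕ × ℕ => decide (a.2 ≤ a.1.unpair.2.unpair.2)) :=
      Primrec.nat_le.decide.comp Primrec.snd (Primrec.snd.comp u2)
    have h2 : Primrec (fun a : ℕ × ℕ => bad (Nat.pair a.1.unpair.2 a.2) a.1.unpair.1) :=
      prim_bad.comp (Primrec₂.natPair.comp (Primrec.snd.comp u) Primrec.snd) (Primrec.fst.comp u)
    exact (Primrec.and.comp h1 h2).to_comp
  obtain ⟨a, ha⟩ := exists_search k w hT (by
    filter_upwards [hs, hw] with x h1 h2
    obtain ⟨a, h3, h4⟩ := pigeon (vl b.1 x) (vl β.1 x) (vl d0.1 x)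
    refine ⟨a, ?_⟩
    rw [h2, Nat.unpair_pair, h1, Bool.and_eq_true, decide_eq_true_eq, bad_iff]
    simp only [Nat.unpair_pair]
    exact ⟨h3, h4⟩)
  have ha' : ∀ᶠ x in k.F, vl a.1 x ≤ vl d0.1 x ∧
      ∀ y < vl b.1 x, rel y (vl a.1 x) (vl β.1 x) (vl d0.1 x) = false := by
    filter_upwards [hs, hw, ha] with x h1 h2 h3
    rw [h2, Nat.unpair_pair, h1, Bool.and_eq_true, decide_eq_true_eq, bad_iff] at h3
    simp only [Nat.unpair_pair] at h3
    exact h3
  obtain ⟨y, hy, hy'⟩ := hb a ((lt_iff k _ _).2 (by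
    filter_upwards [ha', es d0] with x h1 h2
    rw [h2]
    exact Nat.lt_succ_of_le h1.1))
  rw [lt_iff] at hy
  rw [hR] at hy'
  have h2 : ∀ᶠ x in k.F, False := by
    filter_upwards [ha', hy, hy'] with x h3 h4 h5
    rw [h3.2 _ h4] at h5
    exact Bool.false_ne_true h5
  exact h2.exists.elim fun _ h => h

end Pool.Agent.Y560.KH
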