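import Pool.Agent.H872R3.KH.NotPA

/-!
In no node of the Kripke model of `Pool.Agent.H872R3.KH` induction for existential formulas holds.
-/

set_option autoImplicit false

namespace Pool.Agent.Y560.KH

open Filter Dioph Pool.Agent.H872R3.KH

/-- Purely existential formulas `∃ ⋯ ∃ (t = s)`. -/
inductive IsEx : {n : ℕ} → Fm n → Prop
  | eq {n : ℕ} (t s : Tm n) : IsEx (.eq t s)
  | ex {n : ℕ} {φ : Fm (n + 1)} : IsEx φ → IsEx (.ex φ)

theorem IsEx.subst {n : ℕ} {φ : Fm n} (h : IsEx φ) :
    ∀ {m : ℕ} (σ : Fin n → Tm m), IsEx (φ.subst σ) := by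
  induction h with
  | eq t s => intro m σ; exact IsEx.eq _ _
  | ex h ih => intro m σ; exact IsEx.ex (ih _)

theorem isEx_exs {n : ℕ} : ∀ (m : ℕ) (φ : Fm (n + m)), IsEx φ → IsEx (exs n m φ)
  | 0, _, h => h
  | m + 1, φ, h => isEx_exs m (.ex φ) (IsEx.ex h)

/-- a formula for `{x_0}(x_1) = x_2` -/
theorem exists_formula' : ∃ Θ : Fm 3, IsEx Θ ∧ ∀ (k : Node) (u : Fin 3 → k.D), Sat k.str Θ u ↔
    ∀ᶠ x in k.F, vl (u 2).1 x ∈ appl (vl (u 0).1 x) (vl (u 1).1 x) := by
  obtain ⟨tm, P, Q, spec⟩ := exists_theta
  refine ⟨exs 3 tm (.eq P Q), isEx_exs _ _ (IsEx.eq _ _), fun k u => ?_⟩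
  rw [sat_exs]
  change (∃ w : Fin (3 + tm) → k.D, (∀ i : Fin 3, w (i.addNat tm) = u i) ∧
    P.ev k.str w = Q.ev k.str w) ↔ _
  constructor
  · rintro ⟨w, hw, he⟩
    rw [eq_iff] at he
    filter_upwards [he] with x hx
    refine (spec (vls u x)).2 ⟨vls w x, fun i => ?_, hx⟩
    show vl (w (i.addNat tm)).1 x = vl (u i).1 x
    rw [hw]
  · intro h
    -- the search
    let test : ℕ → ℕ → Bool := fun c t => decide
      (((dec (3 + tm) t ((0 : Fin 3).addNat tm) = c.unpair.1.unpair.1 ∧
      dec (3 + tm) t ((1 : Fin 3).addNat tm) = c.unpair.1.unpair.2) ∧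
      dec (3 + tm) t ((2 : Fin 3).addNat tm) = c.unpair.2) ∧
      P.ev stdN (dec (3 + tm) t) = Q.ev stdN (dec (3 + tm) t))
    have htest : Computable₂ test := by
      have cE : ∀ {f g : ℕ × ℕ → ℕ}, Computable f → Computable g →
          Computable (fun a => decide (f a = g a)) := by
        intro f g hf hg
        exact ((Primrec.eq (α := ℕ)).decide.to_comp).comp hf hg
      have cA : ∀ {f g : ℕ × ℕ → Bool}, Computable f → Computable g →
          Computable (fun a => f a && g a) := by
        intro f g hf hg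
        exact (Primrec.and.to_comp).comp hf hg
      have c1 : Computable (fun a : ℕ × ℕ => a.1.unpair.1.unpair.1) :=
        Computable.fst.comp (Computable.unpair.comp (Computable.fst.comp
          (Computable.unpair.comp Computable.fst)))
      have c2 : Computable (fun a : ℕ × ℕ => a.1.unpair.1.unpair.2) :=
        Computable.snd.comp (Computable.unpair.comp (Computable.fst.comp
          (Computable.unpair.comp Computable.fst)))
      have c3 : Computable (fun a : ℕ × ℕ => a.1.unpair.2) :=
        Computable.snd.comp (Computable.unpair.comp Computable.fst)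
      have key := cA (cA (cA
        (cE ((computable_dec_app ((0 : Fin 3).addNat tm)).comp Computable.snd) c1)
        (cE ((computable_dec_app ((1 : Fin 3).addNat tm)).comp Computable.snd) c2))
        (cE ((computable_dec_app ((2 : Fin 3).addNat tm)).comp Computable.snd) c3))
        (cE ((computable_ev P).comp ((computable_dec (3 + tm)).comp Computable.snd))
          ((computable_ev Q).comp ((computable_dec (3 + tm)).comp Computable.snd)))
      refine key.of_eq fun a => ?_
      simp only [test, Bool.decide_and, Bool.and_assoc]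
    let srch : ℕ →. ℕ := fun c => Nat.rfind (fun t => Part.some (test c t))
    have hsrch : Partrec srch := Partrec.rfind htest.partrec₂
    have v0 := k.valid (u 0).1 (u 0).2
    have v1 := k.valid (u 1).1 (u 1).2
    have v2 := k.valid (u 2).1 (u 2).2
    have r3 := (((v0.1.map₂ v1.1 (F := fun a b => Nat.pair a b) Primrec₂.natPair.to_comp)).map₂
      v2.1 (F := fun a b => Nat.pair a b) Primrec₂.natPair.to_comp)
    have r4 := r3.bind hsrch
    -- the values of the search
    have hval : ∀ᶠ x in k.F, ∃ t, t ∈ ((((((u 0).1 x).bind fun a => ((u 1).1 x).bind fun b =>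
        Part.some (Nat.pair a b))).bind fun a => ((u 2).1 x).bind fun b =>
        Part.some (Nat.pair a b)).bind srch) ∧
        (∀ i : Fin 3, dec (3 + tm) t (i.addNat tm) = vls u x i) ∧
        P.ev stdN (dec (3 + tm) t) = Q.ev stdN (dec (3 + tm) t) := by
      filter_upwards [h, v0.2, v1.2, v2.2] with x hx d0 d1 d2
      obtain ⟨w, hw, he⟩ := (spec (vls u x)).1 hx
      have e0 : vl (u 0).1 x ∈ (u 0).1 x := by rw [vl_spec d0]; exact Part.mem_some _
      have e1 : vl (u 1).1 x ∈ (u 1).1 x := by rw [vl_spec d1]; exact Part.mem_some _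
      have e2 : vl (u 2).1 x ∈ (u 2).1 x := by rw [vl_spec d2]; exact Part.mem_some _
      let c := Nat.pair (Nat.pair (vl (u 0).1 x) (vl (u 1).1 x)) (vl (u 2).1 x)
      have ht0 : test c (enc w) = true := by
        simp only [test, c, dec_enc, Nat.unpair_pair, decide_eq_true_eq]
        exact ⟨⟨⟨hw 0, hw 1⟩, hw 2⟩, he⟩
      have hdom : (srch c).Dom := by
        refine Nat.rfind_dom.2 ⟨enc w, ?_, fun _ => trivial⟩
        rw [ht0]
        exact Part.mem_some _
      obtain ⟨t, ht⟩ := Part.dom_iff_mem.1 hdom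
      have ht1 : test c t = true := by
        have := Nat.rfind_spec ht
        simpa using this
      simp only [test, c, Nat.unpair_pair, decide_eq_true_eq] at ht1
      refine ⟨t, ?_, ?_, ht1.2⟩
      · refine Part.mem_bind_iff.2 ⟨c, ?_, ht⟩
        exact Part.mem_bind_iff.2 ⟨Nat.pair (vl (u 0).1 x) (vl (u 1).1 x),
          Part.mem_bind_iff.2 ⟨_, e0, Part.mem_bind_iff.2 ⟨_, e1, Part.mem_some _⟩⟩,
          Part.mem_bind_iff.2 ⟨_, e2, Part.mem_some _⟩⟩
      · intro i
        fin_cases i
        · exact ht1.1.1.1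
        · exact ht1.1.1.2
        · exact ht1.1.2
    have hv4 : Valid k.n k.F _ := ⟨r4, hval.mono fun x hx => by
      obtain ⟨t, ht, -⟩ := hx
      exact Part.dom_iff_mem.2 ⟨t, ht⟩⟩
    let w : Fin (3 + tm) → k.D := fun j => k.mk' _ (hv4.map (computable_dec_app j))
    have hw : ∀ j, ∀ᶠ x in k.F, ∀ t, t ∈ ((((((u 0).1 x).bind fun a => ((u 1).1 x).bind fun b =>
        Part.some (Nat.pair a b))).bind fun a => ((u 2).1 x).bind fun b =>
        Part.some (Nat.pair a b)).bind srch) → vl (w j).1 x = dec (3 + tm) t j := by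
      intro j
      filter_upwards [k.mk'_spec _ (hv4.map (computable_dec_app j))] with x hx t ht
      apply vl_of_mem
      show _ ∈ (k.mk' _ (hv4.map (computable_dec_app j))).1 x
      rw [← hx]
      exact Part.mem_map _ ht
    have hw' := eventually_all.2 hw
    refine ⟨w, fun i => ?_, ?_⟩
    · -- equality of elements
      have := (eq_iff k (cns (w (i.addNat tm)) (cns (u i) (fun i : Fin 0 => i.elim0)))
        (.var 0) (.var 1)).2 ?_
      · exact this
      · filter_upwards [hval, hw'] with x hx hx'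
        obtain ⟨t, ht, ht1, -⟩ := hx
        show vl (w (i.addNat tm)).1 x = vl (u i).1 x
        rw [hx' _ t ht, ht1]
        rfl
    · rw [eq_iff]
      filter_upwards [hval, hw'] with x hx hx'
      obtain ⟨t, ht, -, ht2⟩ := hx
      have : vls w x = dec (3 + tm) t := funext fun j => hx' j t ht
      rw [this, ht2]

end Pool.Agent.Y560.KH
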