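import Pool.Agent.Y560.KH.Form

/-!
Counting the programs which halt: the instance of induction which fails in every node.
-/

set_option autoImplicit false

namespace Pool.Agent.Y560.KH

open Filter Pool.Agent.H872R3.KH
open Nat.Partrec (Code)

/-- the result of the program `e` on the second entry of `s` after the number of steps that is the
first entry of `s` -/
def evs (s e : ℕ) : Option ℕ := Code.evaln s.unpair.1 (Denumerable.ofNat Code e) s.unpair.2

theorem prim_evs : Primrec₂ evs := by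
  have h : Primrec (fun a : (ℕ × Code) × ℕ => Code.evaln a.1.1 a.1.2 a.2) := Code.primrec_evaln
  exact h.comp (Primrec.pair (Primrec.pair (Primrec.fst.comp (Primrec.unpair.comp Primrec.fst))
    ((Primrec.ofNat Code).comp Primrec.snd)) (Primrec.snd.comp (Primrec.unpair.comp Primrec.fst)))

/-- the number of the programs `e < d` with a result -/
def cnt (s : ℕ) : ℕ → ℕ
  | 0 => 0
  | e + 1 => cnt s e + (evs s e).elim 0 (fun _ => 1)

/-- a strict bound for these results -/
def mx (s : ℕ) : ℕ → ℕ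
  | 0 => 0
  | e + 1 => max (mx s e) ((evs s e).elim 0 (fun a => a + 1))

theorem cnt_le (s d : ℕ) : cnt s d ≤ d := by
  induction d with
  | zero => exact le_rfl
  | succ e ih =>
    unfold cnt
    have : (evs s e).elim 0 (fun _ => 1) ≤ 1 := by
      cases evs s e <;> simp
    omega

theorem evs_mono {z z' b e a : ℕ} (hz : z ≤ z') (h : a ∈ evs (Nat.pair z b) e) :
    a ∈ evs (Nat.pair z' b) e := by
  unfold evs at *
  rw [Nat.unpair_pair] at *
  exact Code.evaln_mono hz h

theorem elim_mono {z z' b : ℕ} (hz : z ≤ z') (e : ℕ) :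
    (evs (Nat.pair z b) e).elim 0 (fun _ => 1) ≤ (evs (Nat.pair z' b) e).elim 0 (fun _ => 1) := by
  cases h : evs (Nat.pair z b) e with
  | none => simp
  | some a =>
    have := evs_mono hz (Option.mem_def.2 h)
    rw [Option.mem_def.1 this]

theorem cnt_mono {z z' b : ℕ} (hz : z ≤ z') (d : ℕ) :
    cnt (Nat.pair z b) d ≤ cnt (Nat.pair z' b) d := by
  induction d with
  | zero => exact le_rfl
  | succ e ih =>
    unfold cnt
    exact Nat.add_le_add ih (elim_mono hz e)

theorem cnt_lt {z z' b e a : ℕ} (hz : z ≤ z') (h : evs (Nat.pair z b) e = none)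
    (h' : a ∈ evs (Nat.pair z' b) e) {d : ℕ} (hd : e < d) :
    cnt (Nat.pair z b) d + 1 ≤ cnt (Nat.pair z' b) d := by
  induction d with
  | zero => omega
  | succ f ih =>
    unfold cnt
    rcases Nat.lt_succ_iff_lt_or_eq.1 hd with h1 | h1
    · have := ih h1
      have := elim_mono (b := b) hz f
      omega
    · subst h1
      rw [h, Option.mem_def.1 h']
      have := cnt_mono (b := b) hz e
      simpa using this

theorem mx_spec {s e d a : ℕ} (hd : e < d) (h : a ∈ evs s e) : a < mx s d := by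
  induction d with
  | zero => omega
  | succ f ih =>
    unfold mx
    rcases Nat.lt_succ_iff_lt_or_eq.1 hd with h1 | h1
    · exact lt_of_lt_of_le (ih h1) (le_max_left _ _)
    · subst h1
      rw [Option.mem_def.1 h]
      exact lt_of_lt_of_le (Nat.lt_succ_self _) (le_max_right _ _)

theorem prim_cnt : Primrec₂ cnt := by
  have hh : Primrec₂ (fun (p : ℕ × ℕ) (q : ℕ × ℕ) =>
      q.2 + (evs p.1 q.1).elim 0 (fun _ => 1)) := by
    show Primrec (fun q : (ℕ × ℕ) × (ℕ × ℕ) =>
      q.2.2 + (evs q.1.1 q.2.1).elim 0 (fun _ => 1))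
    have hs : Primrec (fun q : (ℕ × ℕ) × (ℕ × ℕ) => q.2.2) := Primrec.snd.comp Primrec.snd
    refine Primrec.nat_add.comp hs ?_
    have hg : Primrec₂ (fun (_ : (ℕ × ℕ) × (ℕ × ℕ)) (_ : ℕ) => 1) := Primrec₂.const 1
    have := Primrec.option_casesOn (o := fun q : (ℕ × ℕ) × (ℕ × ℕ) => evs q.1.1 q.2.1)
      (f := fun _ => 0)
      (prim_evs.comp (Primrec.fst.comp Primrec.fst) (Primrec.fst.comp Primrec.snd))
      (Primrec.const 0) hg
    refine this.of_eq fun q => ?_
    cases evs q.1.1 q.2.1 <;> rfl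
  have h := Primrec.nat_rec' (f := fun p : ℕ × ℕ => p.2) (g := fun _ : ℕ × ℕ => (0 : ℕ))
    (h := fun (p : ℕ × ℕ) (q : ℕ × ℕ) => q.2 + (evs p.1 q.1).elim 0 (fun _ => 1))
    Primrec.snd (Primrec.const 0) hh
  refine h.of_eq fun p => ?_
  obtain ⟨s, d⟩ := p
  induction d with
  | zero => rfl
  | succ e ih =>
    show _ = cnt s e + _
    rw [← ih]

theorem prim_mx : Primrec₂ mx := by
  have hh : Primrec₂ (fun (p : ℕ × ℕ) (q : ℕ × ℕ) =>
      max q.2 ((evs p.1 q.1).elim 0 (fun a => a + 1))) := by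
    show Primrec (fun q : (ℕ × ℕ) × (ℕ × ℕ) =>
      max q.2.2 ((evs q.1.1 q.2.1).elim 0 (fun a => a + 1)))
    have hs : Primrec (fun q : (ℕ × ℕ) × (ℕ × ℕ) => q.2.2) := Primrec.snd.comp Primrec.snd
    refine Primrec.nat_max.comp hs ?_
    have hg : Primrec₂ (fun (_ : (ℕ × ℕ) × (ℕ × ℕ)) (a : ℕ) => a + 1) :=
      Primrec.succ.comp Primrec.snd
    have := Primrec.option_casesOn (o := fun q : (ℕ × ℕ) × (ℕ × ℕ) => evs q.1.1 q.2.1)
      (f := fun _ => 0)
      (prim_evs.comp (Primrec.fst.comp Primrec.fst) (Primrec.fst.comp Primrec.snd))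
      (Primrec.const 0) hg
    refine this.of_eq fun q => ?_
    cases evs q.1.1 q.2.1 <;> rfl
  have h := Primrec.nat_rec' (f := fun p : ℕ × ℕ => p.2) (g := fun _ : ℕ × ℕ => (0 : ℕ))
    (h := fun (p : ℕ × ℕ) (q : ℕ × ℕ) => max q.2 ((evs p.1 q.1).elim 0 (fun a => a + 1)))
    Primrec.snd (Primrec.const 0) hh
  refine h.of_eq fun p => ?_
  obtain ⟨s, d⟩ := p
  induction d with
  | zero => rfl
  | succ e ih =>
    show _ = max (mx s e) _
    rw [← ih]

/-- a polynomial pairing function -/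
def q (a b : ℕ) : ℕ := (a + b) * (a + b) + b

theorem q_inj {a b a' b' : ℕ} (h : q a b = q a' b') : a = a' ∧ b = b' := by
  unfold q at h
  rcases lt_trichotomy (a + b) (a' + b') with h1 | h1 | h1
  · exfalso; nlinarith
  · rw [h1] at h; omega
  · exfalso; nlinarith

/-- there is an element which is the result of a search -/
theorem exists_search (k : Node) (a : k.D) {test : ℕ → ℕ → Bool} (ht : Computable₂ test)
    (h : ∀ᶠ x in k.F, ∃ t, test (vl a.1 x) t = true) :
    ∃ t : k.D, ∀ᶠ x in k.F, test (vl a.1 x) (vl t.1 x) = true := by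
  let srch : ℕ →. ℕ := fun c => Nat.rfind (fun t => Part.some (test c t))
  have hsrch : Partrec srch := Partrec.rfind ht.partrec₂
  have key : ∀ x, (∃ t, test (vl a.1 x) t = true) → ∃ t, t ∈ srch (vl a.1 x) := by
    rintro x ⟨t, hx⟩
    exact Part.dom_iff_mem.1 (Nat.rfind_dom.2 ⟨t, by
      rw [hx]; exact Part.mem_some _, fun _ => trivial⟩)
  have hv : Valid k.n k.F (fun x => (a.1 x).bind srch) := by
    refine ⟨(k.valid a.1 a.2).1.bind hsrch, ?_⟩
    filter_upwards [h, vl_mem a] with x hx ha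
    obtain ⟨t, ht'⟩ := key x hx
    exact Part.dom_iff_mem.2 ⟨t, Part.mem_bind_iff.2 ⟨_, ha, ht'⟩⟩
  refine ⟨k.mk' _ hv, ?_⟩
  filter_upwards [h, vl_mem a, k.mk'_spec _ hv] with x hx ha hm
  obtain ⟨t, ht'⟩ := key x hx
  have e : vl (k.mk' _ hv).1 x = t := by
    apply vl_of_mem
    rw [← hm]
    exact Part.mem_bind_iff.2 ⟨_, ha, ht'⟩
  rw [e]
  have := Nat.rfind_spec ht'
  simpa using this

/-- the test of the search -/
def tst (p t : ℕ) : Bool :=
  decide (q (q t.unpair.1.unpair.1 t.unpair.1.unpair.2) t.unpair.2.unpair.1 = p) &&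
    decide (t.unpair.1.unpair.1 ≤
      cnt (Nat.pair t.unpair.2.unpair.2 t.unpair.1.unpair.2) t.unpair.2.unpair.1)

theorem comp_tst : Computable₂ tst := by
  have u : Primrec (fun a : ℕ × ℕ => a.2.unpair) := Primrec.unpair.comp Primrec.snd
  have u1 : Primrec (fun a : ℕ × ℕ => a.2.unpair.1.unpair) := Primrec.unpair.comp (Primrec.fst.comp u)
  have u2 : Primrec (fun a : ℕ × ℕ => a.2.unpair.2.unpair) := Primrec.unpair.comp (Primrec.snd.comp u)
  have c : Primrec (fun a : ℕ × ℕ => a.2.unpair.1.unpair.1) := Primrec.fst.comp u1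
  have b : Primrec (fun a : ℕ × ℕ => a.2.unpair.1.unpair.2) := Primrec.snd.comp u1
  have d : Primrec (fun a : ℕ × ℕ => a.2.unpair.2.unpair.1) := Primrec.fst.comp u2
  have z : Primrec (fun a : ℕ × ℕ => a.2.unpair.2.unpair.2) := Primrec.snd.comp u2
  have hq : Primrec₂ q := Primrec.nat_add.comp (Primrec.nat_mul.comp Primrec.nat_add Primrec.nat_add)
    Primrec.snd
  have h1 : Primrec (fun a : ℕ × ℕ => decide (q (q a.2.unpair.1.unpair.1 a.2.unpair.1.unpair.2)
      a.2.unpair.2.unpair.1 = a.1)) :=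
    (Primrec.eq (α := ℕ)).decide.comp (hq.comp (hq.comp c b) d) Primrec.fst
  have h2 : Primrec (fun a : ℕ × ℕ => decide (a.2.unpair.1.unpair.1 ≤
      cnt (Nat.pair a.2.unpair.2.unpair.2 a.2.unpair.1.unpair.2) a.2.unpair.2.unpair.1)) :=
    Primrec.nat_le.decide.comp c (prim_cnt.comp (Primrec₂.natPair.comp z b) d)
  exact (Primrec.and.comp h1 h2).to_comp

theorem exists_code : ∃ e₀ : ℕ, ∀ c b d : ℕ, 0 ∈ appl e₀ (q (q c b) d) ↔
    ∃ z, c ≤ cnt (Nat.pair z b) d := by
  let G : ℕ →. ℕ := fun p => (Nat.rfind (fun t => Part.some (tst p t))).map (fun _ => 0)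
  have hG : Partrec G := (Partrec.rfind comp_tst.partrec₂).map (Computable.const 0).to₂
  obtain ⟨e, he⟩ := Code.exists_code.1 (Partrec.nat_iff.1 hG)
  refine ⟨Encodable.encode e, fun c b d => ?_⟩
  unfold appl
  rw [Denumerable.ofNat_encode, he]
  constructor
  · intro h
    obtain ⟨t, ht, -⟩ := (Part.mem_map_iff _).1 h
    have h1 := Nat.rfind_spec ht
    have h2 : tst (q (q c b) d) t = true := by simpa using h1
    unfold tst at h2
    rw [Bool.and_eq_true, decide_eq_true_eq, decide_eq_true_eq] at h2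
    obtain ⟨h3, h4⟩ := h2
    obtain ⟨h5, h6⟩ := q_inj h3
    obtain ⟨h7, h8⟩ := q_inj h5
    rw [h7, h8, h6] at h4
    exact ⟨_, h4⟩
  · rintro ⟨z, hz⟩
    have h1 : tst (q (q c b) d) (Nat.pair (Nat.pair c b) (Nat.pair d z)) = true := by
      unfold tst
      simp only [Nat.unpair_pair, Bool.and_eq_true, decide_eq_true_eq]
      exact ⟨trivial, hz⟩
    have h2 : (Nat.rfind (fun t => Part.some (tst (q (q c b) d) t))).Dom :=
      Nat.rfind_dom.2 ⟨_, by rw [h1]; exact Part.mem_some _, fun _ => trivial⟩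
    obtain ⟨t, ht⟩ := Part.dom_iff_mem.1 h2
    exact (Part.mem_map_iff _).2 ⟨t, ht, rfl⟩

/-- the term `q t s` -/
def qT {n : ℕ} (t s : Tm n) : Tm n := .add (.mul (.add t s) (.add t s)) s

theorem qT_ev {n : ℕ} (t s : Tm n) (v : Fin n → ℕ) :
    (qT t s).ev stdN v = q (t.ev stdN v) (s.ev stdN v) := rfl

/-- The formula: `x_0` programs below `x_2` halt on `x_1`. -/
theorem exists_chi : ∃ χ : Fm 3, IsEx χ ∧ ∀ (k : Node) (u : Fin 3 → k.D), Sat k.str χ u ↔
    ∀ᶠ x in k.F, ∃ z, vl (u 0).1 x ≤ cnt (Nat.pair z (vl (u 1).1 x)) (vl (u 2).1 x) := by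
  obtain ⟨Θ, hΘ, h⟩ := exists_formula'
  obtain ⟨e₀, he₀⟩ := exists_code
  let σ : Fin 3 → Tm 3 := fun i => Fin.cases (num e₀) (fun j => Fin.cases
    (qT (qT (.var 0) (.var 1)) (.var 2)) (fun _ => .zero) j) i
  refine ⟨Θ.subst σ, hΘ.subst σ, fun k u => ?_⟩
  rw [sat_subst, h]
  have e0 := ev_spec k u (num e₀ : Tm 3)
  have e1 := ev_spec k u (qT (qT (.var 0) (.var 1)) (.var 2))
  have e2 := ev_spec k u (Tm.zero : Tm 3)
  refine eventually_congr ?_
  filter_upwards [e0, e1, e2] with x h0 h1 h2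
  have v0 : vl ((num e₀ : Tm 3).ev k.str u).1 x = e₀ := by
    apply vl_of_mem
    rw [h0, num_ev]
    exact Part.mem_some _
  have v1 : vl ((qT (qT (.var 0) (.var 1)) (.var 2) : Tm 3).ev k.str u).1 x =
      q (q (vl (u 0).1 x) (vl (u 1).1 x)) (vl (u 2).1 x) := by
    apply vl_of_mem
    rw [h1]
    exact Part.mem_some _
  have v2 : vl ((Tm.zero : Tm 3).ev k.str u).1 x = 0 := by
    apply vl_of_mem
    rw [h2]
    exact Part.mem_some _
  show vl ((Tm.zero : Tm 3).ev k.str u).1 x ∈ appl (vl ((num e₀ : Tm 3).ev k.str u).1 x)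
    (vl ((qT (qT (.var 0) (.var 1)) (.var 2) : Tm 3).ev k.str u).1 x) ↔ _
  rw [v0, v1, v2]
  exact he₀ _ _ _

/-- The instance of the induction scheme for `φ`, universally closed. -/
def indAx {n : ℕ} (φ : Fm (n + 1)) : Fm 0 :=
  closure n (.imp (.and (atZero φ) (.all (.imp φ (atSucc φ)))) (.all φ))

theorem main : ∃ φ : Fm 3, IsEx φ ∧ ∀ k : Node, ¬ Sat k.str (indAx φ) (fun i => i.elim0) := by
  obtain ⟨χ, hχ, hS⟩ := exists_chi
  refine ⟨χ, hχ, fun k hind => ?_⟩
  -- the parameters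
  have hβ : Valid k.n k.F (fun x => Part.some (cd k.n x)) :=
    ⟨Rec.cd _, Eventually.of_forall fun _ => trivial⟩
  let β := k.mk' _ hβ
  have eβ : ∀ᶠ x in k.F, vl β.1 x = cd k.n x := by
    filter_upwards [k.mk'_spec _ hβ] with x hx
    apply vl_of_mem
    show _ ∈ (k.mk' _ hβ).1 x
    rw [← hx]
    exact Part.mem_some _
  have hd0 : Valid k.n k.F (fun x => Part.some (x 0)) :=
    ⟨(Rec.last 0).mono k.pos, Eventually.of_forall fun _ => trivial⟩
  let d0 := k.mk' _ hd0
  have ed0 : ∀ᶠ x in k.F, vl d0.1 x = x 0 := by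
    filter_upwards [k.mk'_spec _ hd0] with x hx
    apply vl_of_mem
    show _ ∈ (k.mk' _ hd0).1 x
    rw [← hx]
    exact Part.mem_some _
  let I : k.D → Prop := fun c => ∀ᶠ x in k.F, ∃ z,
    vl c.1 x ≤ cnt (Nat.pair z (vl β.1 x)) (vl d0.1 x)
  have hI : ∀ c : k.D, Sat k.str χ (cns c (cns β (cns d0 (fun i => i.elim0)))) ↔ I c := fun c =>
    hS k _
  have hind' : (Sat k.str (atZero χ) (cns β (cns d0 (fun i => i.elim0))) ∧
      ∀ c : k.D, Sat k.str χ (cns c (cns β (cns d0 (fun i => i.elim0)))) →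
        Sat k.str (atSucc χ) (cns c (cns β (cns d0 (fun i => i.elim0))))) →
      ∀ c : k.D, Sat k.str χ (cns c (cns β (cns d0 (fun i => i.elim0)))) := hind d0 β
  have h0 : Sat k.str (atZero χ) (cns β (cns d0 (fun i => i.elim0))) := by
    rw [sat_atZero, hI]
    filter_upwards [ev_spec k (fun i : Fin 0 => i.elim0) Tm.zero] with x h2
    have h3 : vl k.str.zero.1 x = 0 := by
      apply vl_of_mem
      change (k.str.zero).1 x = Part.some 0 at h2
      rw [h2]
      exact Part.mem_some _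
    exact ⟨0, by rw [h3]; exact Nat.zero_le _⟩
  have es : ∀ c : k.D, ∀ᶠ x in k.F, vl (k.str.succ c).1 x = vl c.1 x + 1 := by
    intro c
    have := ev_spec k (fun _ : Fin 1 => c) (Tm.succ (.var 0))
    filter_upwards [this] with x h2
    apply vl_of_mem
    change (k.str.succ c).1 x = Part.some (vl c.1 x + 1) at h2
    rw [h2]
    exact Part.mem_some _
  -- the induction breaks down
  obtain ⟨c, hc, hc'⟩ : ∃ c : k.D, I c ∧ ¬ I (k.str.succ c) := by
    by_contra hno
    push Not at hno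
    have h1 := hind' ⟨h0, fun c hc => by
      rw [sat_atSucc, hI]
      exact hno c ((hI c).1 hc)⟩ (k.str.succ d0)
    rw [hI] at h1
    have h2 : ∀ᶠ x in k.F, False := by
      filter_upwards [h1, es d0] with x h3 h4
      obtain ⟨z, hz⟩ := h3
      have := cnt_le (Nat.pair z (vl β.1 x)) (vl d0.1 x)
      omega
    exact h2.exists.elim fun _ h => h
  -- the number of steps
  obtain ⟨cb, hcb⟩ := exists_map₂ k c β (f := Nat.pair) Primrec₂.natPair.to_comp
  obtain ⟨s, hs⟩ := exists_map₂ k cb d0 (f := Nat.pair) Primrec₂.natPair.to_comp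
  have hts : Computable₂ (fun s z : ℕ => decide (s.unpair.1.unpair.1 ≤
      cnt (Nat.pair z s.unpair.1.unpair.2) s.unpair.2)) := by
    have u : Primrec (fun a : ℕ × ℕ => a.1.unpair) := Primrec.unpair.comp Primrec.fst
    have u1 : Primrec (fun a : ℕ × ℕ => a.1.unpair.1.unpair) :=
      Primrec.unpair.comp (Primrec.fst.comp u)
    exact (Primrec.nat_le.decide.comp (Primrec.fst.comp u1) (prim_cnt.comp
      (Primrec₂.natPair.comp Primrec.snd (Primrec.snd.comp u1)) (Primrec.snd.comp u))).to_comp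
  obtain ⟨z, hz⟩ := exists_search k s hts (by
    filter_upwards [hc, hcb, hs] with x h1 h2 h3
    obtain ⟨z, hz⟩ := h1
    refine ⟨z, ?_⟩
    rw [h3, h2, Nat.unpair_pair, Nat.unpair_pair, decide_eq_true_eq]
    exact hz)
  have hz' : ∀ᶠ x in k.F, vl c.1 x ≤ cnt (Nat.pair (vl z.1 x) (vl β.1 x)) (vl d0.1 x) := by
    filter_upwards [hz, hcb, hs] with x h1 h2 h3
    rw [h3, h2, Nat.unpair_pair, Nat.unpair_pair, decide_eq_true_eq] at h1
    exact h1
  obtain ⟨zb, hzb⟩ := exists_map₂ k z β (f := Nat.pair) Primrec₂.natPair.to_comp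
  obtain ⟨m, hm⟩ := exists_map₂ k zb d0 (f := mx) prim_mx.to_comp
  -- the bound
  have hbound : ∀ e a : k.D, (∀ᶠ x in k.F, vl e.1 x < vl d0.1 x) →
      (∀ᶠ x in k.F, vl a.1 x ∈ appl (vl e.1 x) (vl β.1 x)) →
      ∀ᶠ x in k.F, vl a.1 x < vl m.1 x := by
    intro e a he ha
    have hp : Computable₂ (fun e s : ℕ => (evs s e).isSome) :=
      (Primrec.option_isSome.comp (prim_evs.comp Primrec.snd Primrec.fst)).to_comp
    have hq : Computable₂ (fun e s : ℕ => !(evs s e).isSome) :=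
      (Primrec.not.comp (Primrec.option_isSome.comp
        (prim_evs.comp Primrec.snd Primrec.fst))).to_comp
    rcases alt k e zb hp hq (Eventually.of_forall fun x => by
      cases (evs (vl zb.1 x) (vl e.1 x)).isSome <;> simp) with h1 | h1
    · filter_upwards [h1, he, ha, hm, hzb] with x h2 h3 h4 h5 h6
      obtain ⟨a', ha'⟩ := Option.isSome_iff_exists.1 h2
      have h7 : a' ∈ appl (vl e.1 x) (vl β.1 x) := by
        unfold evs at ha'
        rw [h6, Nat.unpair_pair] at ha'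
        exact Code.evaln_sound ha'
      rw [h5, Part.mem_unique h4 h7]
      exact mx_spec h3 ha'
    · exfalso
      apply hc'
      filter_upwards [h1, he, ha, hzb, hz', es c] with x h2 h3 h4 h5 h6 h7
      rw [Bool.not_eq_true', Option.isSome_eq_false_iff, Option.isNone_iff_eq_none] at h2
      rw [h5] at h2
      obtain ⟨z', hz1⟩ := Code.evaln_complete.1 h4
      refine ⟨max (vl z.1 x) z', ?_⟩
      rw [h7]
      refine le_trans (Nat.add_le_add_right h6 1) (cnt_lt (le_max_left _ _) h2 (a := vl a.1 x) ?_ h3)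
      unfold evs
      rw [Nat.unpair_pair]
      exact Code.evaln_mono (le_max_right _ _) hz1
  -- diagonalisation
  obtain ⟨f, hf, hzf⟩ := (k.valid m.1 m.2).1
  obtain ⟨p, hp⟩ := Nat.Partrec.Code.exists_code.1 (Partrec.nat_iff.1 hf)
  have he : Valid k.n k.F (fun _ => Part.some (Encodable.encode p)) := valid_const k _
  let e := k.mk' _ he
  have ee : ∀ᶠ x in k.F, vl e.1 x = Encodable.encode p := by
    filter_upwards [k.mk'_spec _ he] with x hx
    apply vl_of_mem
    show _ ∈ (k.mk' _ he).1 x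
    rw [← hx]
    exact Part.mem_some _
  have h2 := hbound e m ?_ ?_
  · obtain ⟨x, hx⟩ := h2.exists
    exact lt_irrefl _ hx
  · filter_upwards [ee, ed0, k.big (Encodable.encode p)] with x h3 h4 h5
    rw [h3, h4]
    exact h5
  · filter_upwards [ee, eβ, vl_mem m] with x h3 h4 h5
    rw [h3, h4]
    unfold appl
    rw [Denumerable.ofNat_encode, hp, ← hzf]
    exact h5

end Pool.Agent.Y560.KH
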