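import Pool.Agent.Y560.KH.Ind

/-!
Existential formulas are true in a node if and only if they are true almost everywhere.
-/

set_option autoImplicit false

namespace Pool.Agent.Y560.KH

open Filter Pool.Agent.H872R3.KH

/-- the tuple coded by a number -/
def tup : (n : ℕ) → ℕ → Fin n → ℕ
  | 0, _ => fun i => i.elim0
  | n + 1, s => cns s.unpair.1 (tup n s.unpair.2)

theorem tup_pair (n m s : ℕ) : tup (n + 1) (Nat.pair m s) = cns m (tup n s) := by
  show cns (Nat.pair m s).unpair.1 (tup n (Nat.pair m s).unpair.2) = _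
  rw [Nat.unpair_pair]

theorem comp_tup : ∀ (n : ℕ) (i : Fin n), Computable (fun s => tup n s i)
  | 0, i => i.elim0
  | n + 1, i => by
    refine Fin.cases ?_ (fun j => ?_) i
    · exact Computable.fst.comp Computable.unpair
    · exact (comp_tup n j).comp (Computable.snd.comp Computable.unpair)

theorem comp_tm {n : ℕ} (t : Tm n) : Computable (fun s => t.ev stdN (tup n s)) := by
  induction t with
  | var i => exact comp_tup n i
  | zero => exact Computable.const 0
  | succ t ih => exact Computable.succ.comp ih
  | add t s iht ihs => exact computable_add.comp iht ihs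
  | mul t s iht ihs => exact computable_mul.comp iht ihs

theorem re_isEx {n : ℕ} {φ : Fm n} (h : IsEx φ) : ∃ T : ℕ → ℕ → Bool, Computable₂ T ∧
    ∀ s, Sat stdN φ (tup n s) ↔ ∃ t, T s t = true := by
  induction h with
  | @eq n t s =>
    refine ⟨fun a _ => decide (t.ev stdN (tup n a) = s.ev stdN (tup n a)), ?_, fun a => ?_⟩
    · exact ((Primrec.eq (α := ℕ)).decide.to_comp).comp ((comp_tm t).comp Computable.fst)
        ((comp_tm s).comp Computable.fst)
    · change t.ev stdN (tup n a) = s.ev stdN (tup n a) ↔ _
      simp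
  | @ex n φ h ih =>
    obtain ⟨T, hT, hs⟩ := ih
    refine ⟨fun s t => T (Nat.pair t.unpair.1 s) t.unpair.2, ?_, fun s => ?_⟩
    · have c1 : Computable (fun a : ℕ × ℕ => Nat.pair a.2.unpair.1 a.1) :=
        (Primrec₂.natPair.comp (Primrec.fst.comp (Primrec.unpair.comp Primrec.snd))
          Primrec.fst).to_comp
      have c2 : Computable (fun a : ℕ × ℕ => a.2.unpair.2) :=
        (Primrec.snd.comp (Primrec.unpair.comp Primrec.snd)).to_comp
      exact hT.comp c1 c2
    · change (∃ m, Sat stdN φ (cns m (tup n s))) ↔ _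
      constructor
      · rintro ⟨m, hm⟩
        rw [← tup_pair, hs] at hm
        obtain ⟨t, ht⟩ := hm
        refine ⟨Nat.pair m t, ?_⟩
        show T (Nat.pair (Nat.pair m t).unpair.1 s) (Nat.pair m t).unpair.2 = true
        rw [Nat.unpair_pair]
        exact ht
      · rintro ⟨t, ht⟩
        refine ⟨t.unpair.1, ?_⟩
        rw [← tup_pair, hs]
        exact ⟨_, ht⟩

theorem exists_tup (k : Node) : ∀ {n : ℕ} (u : Fin n → k.D),
    ∃ s : k.D, ∀ᶠ x in k.F, tup n (vl s.1 x) = vls u x
  | 0, _ => ⟨k.str.zero, Eventually.of_forall fun _ => funext fun i => i.elim0⟩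
  | n + 1, u => by
    obtain ⟨s', hs'⟩ := exists_tup k (fun i => u i.succ)
    obtain ⟨s, hs⟩ := exists_map₂ k (u 0) s' (f := Nat.pair) Primrec₂.natPair.to_comp
    refine ⟨s, ?_⟩
    filter_upwards [hs', hs] with x h1 h2
    rw [h2, tup_pair, h1]
    funext i
    refine Fin.cases ?_ (fun j => ?_) i <;> rfl

theorem transfer {n : ℕ} {φ : Fm n} (h : IsEx φ) : ∀ (k : Node) (u : Fin n → k.D),
    Sat k.str φ u ↔ ∀ᶠ x in k.F, Sat stdN φ (vls u x) := by
  induction h with
  | eq t s => intro k u; exact eq_iff k u t s
  | @ex n φ h ih =>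
    intro k u
    constructor
    · rintro ⟨a, ha⟩
      filter_upwards [(ih k _).1 ha] with x hx
      rw [vls_cns] at hx
      exact ⟨_, hx⟩
    · intro hu
      obtain ⟨T, hT, hs⟩ := re_isEx h
      obtain ⟨s, hs'⟩ := exists_tup k u
      have hT' : Computable₂ (fun s t : ℕ => T (Nat.pair t.unpair.1 s) t.unpair.2) := by
        have c1 : Computable (fun a : ℕ × ℕ => Nat.pair a.2.unpair.1 a.1) :=
          (Primrec₂.natPair.comp (Primrec.fst.comp (Primrec.unpair.comp Primrec.snd))
            Primrec.fst).to_comp
        have c2 : Computable (fun a : ℕ × ℕ => a.2.unpair.2) :=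
          (Primrec.snd.comp (Primrec.unpair.comp Primrec.snd)).to_comp
        exact hT.comp c1 c2
      obtain ⟨w, hw⟩ := exists_search k s hT' (by
        filter_upwards [hu, hs'] with x h1 h2
        obtain ⟨m, hm⟩ := h1
        rw [← h2, ← tup_pair, hs] at hm
        obtain ⟨t, ht⟩ := hm
        exact ⟨Nat.pair m t, by rw [Nat.unpair_pair]; exact ht⟩)
      obtain ⟨a, ha⟩ := exists_map₂ k w w (f := fun w _ => w.unpair.1)
        (Computable.fst.comp (Computable.unpair.comp Computable.fst))
      refine ⟨a, (ih k _).2 ?_⟩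
      filter_upwards [hs', hw, ha] with x h1 h2 h3
      rw [vls_cns, h3, ← h1, ← tup_pair, hs]
      exact ⟨_, h2⟩

theorem sat_closure {M : Type} (A : Str M) : ∀ (n : ℕ) (φ : Fm n),
    Sat A (closure n φ) (fun i => i.elim0) ↔ ∀ v : Fin n → M, Sat A φ v
  | 0, φ => by
    constructor
    · intro h v
      have : v = fun i => i.elim0 := funext fun i => i.elim0
      rw [this]
      exact h
    · intro h
      exact h _
  | n + 1, φ => by
    refine (sat_closure A n (.all φ)).trans ?_
    constructor
    · intro h v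
      have : (cns (v 0) (fun i => v i.succ) : Fin (n + 1) → M) = v := by
        funext i
        refine Fin.cases rfl (fun j => rfl) i
      rw [← this]
      exact h _ _
    · intro h v a
      exact h _

/-- True universal-existential sentences are true in all nodes. -/
theorem true_pi₂ {n : ℕ} {φ : Fm n} (h : IsEx φ)
    (ht : Sat stdN (closure n φ) (fun i => i.elim0)) (k : Node) :
    Sat k.str (closure n φ) (fun i => i.elim0) := by
  rw [sat_closure] at ht ⊢
  intro u
  rw [transfer h]
  exact Eventually.of_forall fun x => ht _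

end Pool.Agent.Y560.KH
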